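import Pool.Agent.H654R5.PT.Stm

/-! ENC: distances of codewords (helper368). -/

namespace Pool.Agent.H654R5.PT.ENC

open Pool.Agent.NPC

theorem valB_inj : ∀ (s t : List Bool), s.length = t.length → valB s = valB t → s = t := by
  intro s
  induction s with
  | nil =>
    intro t h _
    cases t with
    | nil => rfl
    | cons b t => simp at h
  | cons a s ih =>
    intro t h hv
    cases t with
    | nil => simp at h
    | cons b t =>
      rw [valB_cons, valB_cons] at hv
      have hl : s.length = t.length := by simpa using h
      cases a <;> cases b <;> simp only [if_true, Bool.false_eq_true, if_false] at hv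
      · rw [ih t hl (by omega)]
      · omega
      · omega
      · rw [ih t hl (by omega)]

theorem valB_surj : ∀ (m α : ℕ), α < 2 ^ m → ∃ s : List Bool, s.length = m ∧ valB s = α := by
  intro m
  induction m with
  | zero =>
    intro α h
    exact ⟨[], rfl, by rw [valB_nil]; simp at h; omega⟩
  | succ m ih =>
    intro α h
    obtain ⟨s, hs, hv⟩ := ih (α / 2) (by rw [pow_succ] at h; omega)
    refine ⟨(decide (α % 2 = 1)) :: s, by simp [hs], ?_⟩
    rw [valB_cons, hv]
    by_cases h2 : α % 2 = 1
    · simp only [h2, decide_true, if_true]; omega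
    · simp only [h2, decide_false, Bool.false_eq_true, if_false]; omega

theorem split_card (hS : S_STR) (m k : ℕ) (P : ℕ → List Bool → Prop)
    [∀ α l, Decidable (P α l)] :
    ((strs (m + k)).filter (fun z => P (valB (z.take m)) (z.drop m))).card =
      ∑ α ∈ Finset.range (2 ^ m), ((strs k).filter (fun l => P α l)).card := by
  obtain ⟨-, -, -, hmem, -⟩ := hS
  rw [Finset.card_eq_sum_card_fiberwise (f := fun z => valB (z.take m)) (t := Finset.range (2 ^ m))]
  · refine Finset.sum_congr rfl fun α hα => ?_
    rw [Finset.mem_range] at hα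
    refine Finset.card_bij (fun z _ => z.drop m) ?_ ?_ ?_
    · intro z hz
      rw [Finset.mem_filter, Finset.mem_filter] at hz
      obtain ⟨⟨h1, h2⟩, h3⟩ := hz
      rw [hmem] at h1
      rw [Finset.mem_filter, hmem]
      refine ⟨by rw [List.length_drop, h1]; omega, ?_⟩
      have h3' : valB (z.take m) = α := h3
      rw [h3'] at h2
      exact h2
    · intro z hz z' hz' heq
      rw [Finset.mem_filter, Finset.mem_filter] at hz hz'
      obtain ⟨⟨h1, -⟩, h3⟩ := hz
      obtain ⟨⟨h1', -⟩, h3'⟩ := hz'
      rw [hmem] at h1 h1'
      have e1 : z.take m = z'.take m := by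
        apply valB_inj
        · rw [List.length_take, List.length_take, h1, h1']
        · exact h3.trans h3'.symm
      have e2 : z.drop m = z'.drop m := heq
      rw [← List.take_append_drop m z, ← List.take_append_drop m z', e1, e2]
    · intro l hl
      rw [Finset.mem_filter, hmem] at hl
      obtain ⟨s, hs, hv⟩ := valB_surj m α hα
      have e1 : (s ++ l).take m = s := by rw [← hs]; exact List.take_left
      have e2 : (s ++ l).drop m = l := by rw [← hs]; exact List.drop_left
      refine ⟨s ++ l, ?_, e2⟩
      rw [Finset.mem_filter, Finset.mem_filter, hmem]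
      refine ⟨⟨by rw [List.length_append, hs, hl.1], ?_⟩, ?_⟩
      · rw [e1, e2, hv]; exact hl.2
      · show valB ((s ++ l).take m) = α
        rw [e1, hv]
  · intro z hz
    rw [Finset.mem_coe, Finset.mem_filter, hmem] at hz
    rw [Finset.mem_coe, Finset.mem_range]
    have := valB_lt (z.take m)
    have hl : (z.take m).length = m := by rw [List.length_take, hz.1]; omega
    rw [hl] at this
    exact this

theorem sum_lb (Q K : ℕ) (c : ℕ → ℕ) (bad : Finset ℕ) (hb : bad ⊆ Finset.range Q)
    (h : ∀ α ∈ Finset.range Q, α ∉ bad → K ≤ c α) :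
    (Q - bad.card) * K ≤ ∑ α ∈ Finset.range Q, c α := by
  calc (Q - bad.card) * K = (Finset.range Q \ bad).card * K := by
        rw [Finset.card_sdiff_of_subset hb, Finset.card_range]
    _ = ∑ _α ∈ Finset.range Q \ bad, K := by rw [Finset.sum_const, smul_eq_mul]
    _ ≤ ∑ α ∈ Finset.range Q \ bad, c α := by
        refine Finset.sum_le_sum fun α hα => ?_
        rw [Finset.mem_sdiff] at hα
        exact h α hα.1 hα.2
    _ ≤ ∑ α ∈ Finset.range Q, c α :=
        Finset.sum_le_sum_of_subset Finset.sdiff_subset

theorem dot_zero (l : List Bool) : dot 0 l = false := by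
  unfold dot
  induction List.range l.length with
  | nil => rfl
  | cons i L ih => simp [ih]

theorem half_false (hS : S_STR) (hH : S_HAD) (k u : ℕ) (hu : u < 2 ^ k) :
    2 ^ k ≤ 2 * ((strs k).filter (fun l => dot u l = false)).card := by
  obtain ⟨-, -, -, -, hcard⟩ := hS
  by_cases h0 : u = 0
  · subst h0
    have : (strs k).filter (fun l => dot 0 l = false) = strs k := by
      apply Finset.filter_true_of_mem
      intro l _
      exact dot_zero l
    rw [this, hcard]
    omega
  · have h1 := (hH k u 0 hu (by positivity)).2.1 h0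
    have h2 := Finset.card_filter_add_card_filter_not (s := strs k) (fun l => dot u l = true)
    have h3 : (strs k).filter (fun l => ¬ dot u l = true)
        = (strs k).filter (fun l => dot u l = false) := by
      apply Finset.filter_congr
      intro l _
      simp
    rw [h3, hcard] at h2
    omega

theorem ENC_proof (hS : S_STR) (hP : S_PRM) (hR : S_RES) (hH : S_HAD) : S_ENC := by
  intro g x y hx hy htrue
  obtain ⟨hp, hple, hplt⟩ := hP (2 ^ bq g) (by
    have : 2 ^ 1 ≤ 2 ^ bq g := Nat.pow_le_pow_right (by norm_num) (by unfold bq; omega)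
    simpa using this)
  have hxy : x.length = y.length := by rw [hx, hy]
  have hRx := hR (pr g) x y (2 ^ bq g) hp hple hxy
  have hRy := hR (pr g) y x (2 ^ bq g) hp hple hxy.symm
  obtain ⟨hx1, hx2, hx3⟩ := hRx
  have hy1 := hRy.1
  have hK : 2 ^ (3 * g + 11) = 2 * 2 ^ bq g := by unfold bq; rw [← pow_succ']
  have hux : ∀ α, resid (pr g) x α < 2 ^ (3 * g + 11) := fun α =>
    (hx1 α).trans (by rw [hK]; exact hplt)
  have huy : ∀ α, resid (pr g) y α < 2 ^ (3 * g + 11) := fun α =>
    (hy1 α).trans (by rw [hK]; exact hplt)
  have haa : aa g = bq g + (3 * g + 11) := by unfold aa bq; omega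
  have hA : 2 ^ aa g = 2 ^ bq g * (2 * 2 ^ bq g) := by rw [haa, pow_add, hK]
  have hG : 1024 * 2 ^ g ≤ 2 ^ bq g := by
    have : 2 ^ (10 + g) ≤ 2 ^ bq g := Nat.pow_le_pow_right (by norm_num) (by unfold bq; omega)
    rw [pow_add] at this
    norm_num at this
    exact this
  have hg1 : 1 ≤ 2 ^ g := Nat.one_le_two_pow
  rw [hx] at hx2 hx3
  have hx3' := hx3 htrue
  refine ⟨?_, ?_, ?_⟩
  · intro hne
    have hx2' := hx2 hne
    have e := split_card hS (bq g) (3 * g + 11)
      (fun α l => dot (resid (pr g) x α) l = true ∧ dot (resid (pr g) y α) l = false)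
    rw [← haa] at e
    have e' : ((strs (aa g)).filter (fun z => code g x z = true ∧ code g y z = false)).card
        = ∑ α ∈ Finset.range (2 ^ bq g), ((strs (3 * g + 11)).filter
          (fun l => dot (resid (pr g) x α) l = true ∧ dot (resid (pr g) y α) l = false)).card := e
    rw [e']
    have hlb := sum_lb (2 ^ bq g) (2 ^ (3 * g + 11)) (fun α => 4 * ((strs (3 * g + 11)).filter
          (fun l => dot (resid (pr g) x α) l = true ∧ dot (resid (pr g) y α) l = false)).card)
      ((Finset.range (2 ^ bq g)).filter (fun α => resid (pr g) x α = resid (pr g) y α) ∪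
        (Finset.range (2 ^ bq g)).filter (fun α => resid (pr g) x α = 0))
      (Finset.union_subset (Finset.filter_subset _ _) (Finset.filter_subset _ _)) (by
        intro α hα hb
        rw [Finset.mem_union, Finset.mem_filter, Finset.mem_filter, not_or, not_and, not_and] at hb
        exact (hH (3 * g + 11) _ _ (hux α) (huy α)).2.2 (hb.2 hα) (hb.1 hα))
    have hc := Finset.card_union_le
      ((Finset.range (2 ^ bq g)).filter (fun α => resid (pr g) x α = resid (pr g) y α))
      ((Finset.range (2 ^ bq g)).filter (fun α => resid (pr g) x α = 0))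
    have hsum : ∑ α ∈ Finset.range (2 ^ bq g), 4 * ((strs (3 * g + 11)).filter
          (fun l => dot (resid (pr g) x α) l = true ∧ dot (resid (pr g) y α) l = false)).card
        = 4 * ∑ α ∈ Finset.range (2 ^ bq g), ((strs (3 * g + 11)).filter
          (fun l => dot (resid (pr g) x α) l = true ∧ dot (resid (pr g) y α) l = false)).card := by
      rw [Finset.mul_sum]
    rw [hsum] at hlb
    generalize (∑ α ∈ Finset.range (2 ^ bq g), ((strs (3 * g + 11)).filter
          (fun l => dot (resid (pr g) x α) l = true ∧ dot (resid (pr g) y α) l = false)).card) = S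
      at hlb ⊢
    generalize ((Finset.range (2 ^ bq g)).filter (fun α => resid (pr g) x α = resid (pr g) y α) ∪
        (Finset.range (2 ^ bq g)).filter (fun α => resid (pr g) x α = 0)).card = b at hlb hc
    have hb : b < 2 * 2 ^ g := by omega
    rw [hK] at hlb
    rw [hA]
    generalize 2 ^ bq g = M at *
    generalize 2 ^ g = G at *
    have hMb : M < 2 * (M - b) := by omega
    have h1 : 1 ≤ M := by omega
    nlinarith [Nat.mul_lt_mul_of_pos_right hMb (show 0 < 2 * M by omega)]
  · have e := split_card hS (bq g) (3 * g + 11) (fun α l => dot (resid (pr g) x α) l = true)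
    rw [← haa] at e
    have e' : ((strs (aa g)).filter (fun z => code g x z = true)).card
        = ∑ α ∈ Finset.range (2 ^ bq g), ((strs (3 * g + 11)).filter
          (fun l => dot (resid (pr g) x α) l = true)).card := e
    rw [e']
    have hlb := sum_lb (2 ^ bq g) (2 ^ (3 * g + 11)) (fun α => 2 * ((strs (3 * g + 11)).filter
          (fun l => dot (resid (pr g) x α) l = true)).card)
      ((Finset.range (2 ^ bq g)).filter (fun α => resid (pr g) x α = 0))
      (Finset.filter_subset _ _) (by
        intro α hα hb
        rw [Finset.mem_filter, not_and] at hb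
        exact ((hH (3 * g + 11) _ _ (hux α) (huy α)).2.1 (hb hα)).ge)
    have hsum : ∑ α ∈ Finset.range (2 ^ bq g), 2 * ((strs (3 * g + 11)).filter
          (fun l => dot (resid (pr g) x α) l = true)).card
        = 2 * ∑ α ∈ Finset.range (2 ^ bq g), ((strs (3 * g + 11)).filter
          (fun l => dot (resid (pr g) x α) l = true)).card := by
      rw [Finset.mul_sum]
    rw [hsum] at hlb
    generalize (∑ α ∈ Finset.range (2 ^ bq g), ((strs (3 * g + 11)).filter
          (fun l => dot (resid (pr g) x α) l = true)).card) = S at hlb ⊢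
    generalize ((Finset.range (2 ^ bq g)).filter (fun α => resid (pr g) x α = 0)).card = b
      at hlb hx3'
    rw [hK] at hlb
    rw [hA]
    generalize 2 ^ bq g = M at *
    generalize 2 ^ g = G at *
    have hMb : M < 2 * (M - b) := by omega
    have h1 : 1 ≤ M := by omega
    nlinarith [Nat.mul_lt_mul_of_pos_right hMb (show 0 < 2 * M by omega)]
  · have e := split_card hS (bq g) (3 * g + 11) (fun α l => dot (resid (pr g) x α) l = false)
    rw [← haa] at e
    have e' : ((strs (aa g)).filter (fun z => code g x z = false)).card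
        = ∑ α ∈ Finset.range (2 ^ bq g), ((strs (3 * g + 11)).filter
          (fun l => dot (resid (pr g) x α) l = false)).card := e
    rw [e']
    have hlb := sum_lb (2 ^ bq g) (2 ^ (3 * g + 11)) (fun α => 2 * ((strs (3 * g + 11)).filter
          (fun l => dot (resid (pr g) x α) l = false)).card) ∅ (Finset.empty_subset _)
      (fun α _ _ => half_false hS hH _ _ (hux α))
    have hsum : ∑ α ∈ Finset.range (2 ^ bq g), 2 * ((strs (3 * g + 11)).filter
          (fun l => dot (resid (pr g) x α) l = false)).card
        = 2 * ∑ α ∈ Finset.range (2 ^ bq g), ((strs (3 * g + 11)).filter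
          (fun l => dot (resid (pr g) x α) l = false)).card := by
      rw [Finset.mul_sum]
    rw [hsum, Finset.card_empty, Nat.sub_zero] at hlb
    generalize (∑ α ∈ Finset.range (2 ^ bq g), ((strs (3 * g + 11)).filter
          (fun l => dot (resid (pr g) x α) l = false)).card) = S at hlb ⊢
    rw [hK] at hlb
    rw [hA]
    have h1 : 1 ≤ 2 ^ bq g * (2 * 2 ^ bq g) := Nat.one_le_iff_ne_zero.2 (by positivity)
    omega

end Pool.Agent.H654R5.PT.ENC
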